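import Mathlib

/-! Lorentz form attached to spheres of radius one over root two, and the trace inequality. -/

namespace Pool.Agent.Lib.Helper17.AE

open Finset

/-- the ambient Euclidean space -/
abbrev E (d : ℕ) := EuclideanSpace ℝ (Fin d)

/-- the Lorentz space -/
abbrev L (d : ℕ) := ℝ × ℝ × E d

/-- the Lorentz form -/
noncomputable def form (d : ℕ) : L d →ₗ[ℝ] L d →ₗ[ℝ] ℝ :=
  LinearMap.mk₂ ℝ (fun a b => a.1 * b.1 - a.1 * b.2.1 - a.2.1 * b.1 + 2 * inner ℝ a.2.2 b.2.2)
    (by intro a a' b; simp only [Prod.fst_add, Prod.snd_add, inner_add_left]; ring)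
    (by intro c a b; simp only [Prod.smul_fst, Prod.smul_snd, smul_eq_mul, real_inner_smul_left]; ring)
    (by intro a b b'; simp only [Prod.fst_add, Prod.snd_add, inner_add_right]; ring)
    (by intro c a b; simp only [Prod.smul_fst, Prod.smul_snd, smul_eq_mul, real_inner_smul_right]; ring)

theorem form_apply (d : ℕ) (a b : L d) : form d a b =
    a.1 * b.1 - a.1 * b.2.1 - a.2.1 * b.1 + 2 * inner ℝ a.2.2 b.2.2 := rfl

theorem form_comm (d : ℕ) (a b : L d) : form d a b = form d b a := by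
  rw [form_apply, form_apply, real_inner_comm]; ring

theorem form_nonneg {d : ℕ} {a : L d} (h : a.1 = 0) : 0 ≤ form d a a := by
  rw [form_apply, h, real_inner_self_eq_norm_sq]; nlinarith [sq_nonneg ‖a.2.2‖]

/-- the orthogonal complement of a negative vector is positive semidefinite -/
theorem form_orth_nonneg {d : ℕ} {a b : L d} (ha : form d a a < 0) (hab : form d a b = 0) :
    0 ≤ form d b b := by
  by_contra hb
  push Not at hb
  have ha1 : a.1 ≠ 0 := by
    intro h; exact absurd (form_nonneg h) (not_le.mpr ha)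
  have hba : form d b a = 0 := by rw [form_comm]; exact hab
  have h1 : 0 ≤ form d (b.1 • a - a.1 • b) (b.1 • a - a.1 • b) := by
    apply form_nonneg
    simp; ring
  simp only [map_sub, map_smul, LinearMap.sub_apply, LinearMap.smul_apply, smul_eq_mul, hab, hba] at h1
  nlinarith [mul_pos (sq_pos_of_ne_zero ha1) (neg_pos.mpr hb), mul_nonneg (sq_nonneg b.1) (neg_nonneg.mpr ha.le)]

/-- the lift of a point -/
noncomputable def lift {d : ℕ} (x : E d) : L d := (1, ‖x‖ ^ 2, x)

theorem form_lift {d : ℕ} (x y : E d) : form d (lift x) (lift y) = 1 - dist x y ^ 2 := by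
  rw [form_apply, dist_eq_norm, @norm_sub_sq_real]
  simp only [lift]; ring

theorem finrank_L (d : ℕ) : Module.finrank ℝ (L d) = d + 2 := by
  simp [L, E]; omega

/-- trace inequality in a subspace -/
theorem trace_sq_le_sub {J : Type*} [Fintype J] [DecidableEq J]
    (S : Submodule ℝ (EuclideanSpace ℝ J)) (a : J → EuclideanSpace ℝ J) (ha : ∀ j, a j ∈ S)
    (ε : J → ℝ) (hε : ∀ j, ε j ^ 2 = 1) :
    (∑ j, ε j * a j j) ^ 2 ≤ (Module.finrank ℝ S : ℝ) * ∑ j, ‖a j‖ ^ 2 := by
  let b := stdOrthonormalBasis ℝ S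
  have hb : Orthonormal ℝ (fun i => (b i : EuclideanSpace ℝ J)) := by
    have := b.orthonormal
    exact this.comp_linearIsometry S.subtypeₗᵢ
  have hexp : ∀ j, a j = ∑ i, inner ℝ (b i : EuclideanSpace ℝ J) (a j) • (b i : EuclideanSpace ℝ J) := by
    intro j
    have h := b.sum_repr' ⟨a j, ha j⟩
    have h2 := congrArg (fun x : S => (x : EuclideanSpace ℝ J)) h
    simp only [Submodule.coe_sum, Submodule.coe_smul, Submodule.coe_inner] at h2
    exact h2.symm
  have h1 : ∑ j, ε j * a j j = ∑ p : J × Fin (Module.finrank ℝ S),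
      inner ℝ (b p.2 : EuclideanSpace ℝ J) (a p.1) * (ε p.1 * (b p.2 : EuclideanSpace ℝ J) p.1) := by
    rw [Fintype.sum_prod_type]
    refine Finset.sum_congr rfl fun j _ => ?_
    have h := congrArg (fun x : EuclideanSpace ℝ J => x j) (hexp j)
    simp only [WithLp.ofLp_sum, WithLp.ofLp_smul, Finset.sum_apply, Pi.smul_apply, smul_eq_mul] at h
    rw [h, Finset.mul_sum]
    refine Finset.sum_congr rfl fun i _ => ?_
    ring
  rw [h1]
  refine (Finset.sum_mul_sq_le_sq_mul_sq _ _ _).trans ?_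
  have h2 : ∑ p : J × Fin (Module.finrank ℝ S), (inner ℝ (b p.2 : EuclideanSpace ℝ J) (a p.1)) ^ 2
      ≤ ∑ j, ‖a j‖ ^ 2 := by
    rw [Fintype.sum_prod_type]
    refine Finset.sum_le_sum fun j _ => ?_
    have := hb.sum_inner_products_le (x := a j) (s := Finset.univ)
    simpa using this
  have h3 : ∑ p : J × Fin (Module.finrank ℝ S), (ε p.1 * (b p.2 : EuclideanSpace ℝ J) p.1) ^ 2
      = (Module.finrank ℝ S : ℝ) := by
    rw [Fintype.sum_prod_type, Finset.sum_comm]
    have : ∀ i : Fin (Module.finrank ℝ S), ∑ j, (ε j * (b i : EuclideanSpace ℝ J) j) ^ 2 = 1 := by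
      intro i
      have hn := hb.1 i
      have h4 : ‖(b i : EuclideanSpace ℝ J)‖ ^ 2 = 1 := by rw [hn]; norm_num
      rw [EuclideanSpace.real_norm_sq_eq] at h4
      rw [← h4]
      refine Finset.sum_congr rfl fun j _ => ?_
      rw [mul_pow, hε, one_mul]
    simp [this]
  rw [h3, mul_comm]
  exact mul_le_mul_of_nonneg_left h2 (Nat.cast_nonneg _)

/-- trace inequality for the Lorentz Gram matrix -/
theorem trace_sq_le {d : ℕ} {J : Type*} [Fintype J] [DecidableEq J] (v : J → L d)
    (ε : J → ℝ) (hε : ∀ j, ε j ^ 2 = 1) :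
    (∑ j, ε j * form d (v j) (v j)) ^ 2 ≤ ((d : ℝ) + 2) * ∑ j, ∑ i, form d (v j) (v i) ^ 2 := by
  let Φ : L d →ₗ[ℝ] EuclideanSpace ℝ J :=
    (WithLp.linearEquiv 2 ℝ (J → ℝ)).symm.toLinearMap ∘ₗ
      LinearMap.pi (fun i => (form d).flip (v i))
  have hΦ : ∀ w i, (Φ w) i = form d w (v i) := fun w i => rfl
  have h := trace_sq_le_sub (LinearMap.range Φ) (fun j => Φ (v j)) (fun j => ⟨v j, rfl⟩) ε hε
  simp only [hΦ, EuclideanSpace.real_norm_sq_eq] at h
  refine h.trans ?_
  refine mul_le_mul_of_nonneg_right ?_ (Finset.sum_nonneg fun j _ => Finset.sum_nonneg fun i _ => sq_nonneg _)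
  have h5 := LinearMap.finrank_range_le Φ
  rw [finrank_L] at h5
  exact_mod_cast h5

end Pool.Agent.Lib.Helper17.AE
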