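import Pool.Agent.Lib.Helper17.AE.Basic

/-! Almost-equidistant sets: a point with large non-unit weight. -/

namespace Pool.Agent.Lib.Helper17.AE

open Finset

/-- among any three distinct points two are at distance one -/
def AlmostEq {d : ℕ} (V : Finset (E d)) : Prop :=
  ∀ x ∈ V, ∀ y ∈ V, ∀ z ∈ V, x ≠ y → y ≠ z → x ≠ z → dist x y = 1 ∨ dist y z = 1 ∨ dist x z = 1

open Classical in
/-- the points at non-unit distance -/
noncomputable def nbr {d : ℕ} (V : Finset (E d)) (x : E d) : Finset (E d) :=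
  V.filter (fun y => y ≠ x ∧ dist x y ≠ 1)

theorem mem_nbr {d : ℕ} {V : Finset (E d)} {x y : E d} :
    y ∈ nbr V x ↔ y ∈ V ∧ y ≠ x ∧ dist x y ≠ 1 := by
  classical
  unfold nbr; rw [Finset.mem_filter]

theorem nbr_unit {d : ℕ} {V : Finset (E d)} (hV : AlmostEq V) {x y z : E d} (hx : x ∈ V)
    (hy : y ∈ nbr V x) (hz : z ∈ nbr V x) (hyz : y ≠ z) : dist y z = 1 := by
  rw [mem_nbr] at hy hz
  rcases hV x hx y hy.1 z hz.1 (Ne.symm hy.2.1) hyz (Ne.symm hz.2.1) with h | h | h
  · exact absurd h hy.2.2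
  · exact h
  · exact absurd h hz.2.2

theorem simplex_card {d : ℕ} (Y : Finset (E d)) (hY : ∀ y ∈ Y, ∀ z ∈ Y, y ≠ z → dist y z = 1) :
    Y.card ≤ d + 1 := by
  classical
  have hind : AffineIndependent ℝ (fun y : Y => (y : E d)) := by
    rw [affineIndependent_iff]
    intro s w hw hwp
    have h0 : 0 = ∑ y ∈ s, w y ^ 2 := by
      have h1 : form d (∑ y ∈ s, w y • lift (y : E d)) (∑ y ∈ s, w y • lift (y : E d)) = 0 := by
        have e1 : (∑ y ∈ s, w y • lift (y : E d)).1 = 0 := by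
          rw [Prod.fst_sum]
          simpa [lift] using hw
        have e2 : (∑ y ∈ s, w y • lift (y : E d)).2.2 = 0 := by
          rw [Prod.snd_sum, Prod.snd_sum]
          simpa [lift] using hwp
        rw [form_apply, e1, e2]; simp
      rw [← h1]
      simp only [map_sum, LinearMap.sum_apply, map_smul, LinearMap.smul_apply, smul_eq_mul, form_lift]
      refine (Finset.sum_congr rfl fun y hy => ?_).symm
      rw [Finset.sum_eq_single y]
      · simp; ring
      · intro z hz hzy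
        rw [hY (z : E d) z.2 y y.2 (fun h => hzy (Subtype.ext h))]
        simp
      · intro h; exact absurd hy h
    intro y hy
    have h2 : ∀ y ∈ s, 0 ≤ w y ^ 2 := fun y _ => sq_nonneg _
    have h3 := (Finset.sum_eq_zero_iff_of_nonneg h2).mp h0.symm y hy
    exact pow_eq_zero_iff (two_ne_zero) |>.mp h3
  have h := hind.card_le_finrank_succ
  rw [Fintype.card_coe] at h
  have h2 : Module.finrank ℝ (vectorSpan ℝ (Set.range fun y : Y => (y : E d))) ≤ d := by
    have := Submodule.finrank_le (vectorSpan ℝ (Set.range fun y : Y => (y : E d)))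
    simpa using this
  omega

theorem nbr_card {d : ℕ} {V : Finset (E d)} (hV : AlmostEq V) {x : E d} (hx : x ∈ V) :
    (nbr V x).card ≤ d + 1 :=
  simplex_card _ fun _ hy _ hz hyz => nbr_unit hV hx hy hz hyz

/-- the vector attached to a point and a set of its non-unit partners -/
noncomputable def wv {d : ℕ} (x : E d) (Y : Finset (E d)) : L d :=
  lift x - ∑ y ∈ Y, (1 - dist x y ^ 2) • lift y

theorem form_wv {d : ℕ} (x : E d) (Y : Finset (E d)) (b : L d) :
    form d (wv x Y) b = form d (lift x) b - ∑ y ∈ Y, (1 - dist x y ^ 2) * form d (lift y) b := by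
  simp only [wv, map_sub, map_sum, map_smul, LinearMap.sub_apply, LinearMap.sum_apply,
    LinearMap.smul_apply, smul_eq_mul]

theorem form_wv_of_mem {d : ℕ} (x : E d) (Y : Finset (E d))
    (hY : ∀ y ∈ Y, ∀ z ∈ Y, y ≠ z → dist y z = 1) {y : E d} (hy : y ∈ Y) :
    form d (wv x Y) (lift y) = 0 := by
  classical
  rw [form_wv, form_lift, Finset.sum_eq_single y]
  · rw [form_lift]; simp
  · intro z hz hzy
    rw [form_lift, hY z hz y hy hzy]; simp
  · intro h; exact absurd hy h

theorem form_wv_far {d : ℕ} (x : E d) (Y : Finset (E d)) {z : E d} (h1 : dist x z = 1)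
    (h2 : ∀ y ∈ Y, dist y z = 1) : form d (wv x Y) (lift z) = 0 := by
  rw [form_wv, form_lift, h1]
  rw [Finset.sum_eq_zero]
  · norm_num
  · intro y hy
    rw [form_lift, h2 y hy]; norm_num

theorem form_wv_self {d : ℕ} (x : E d) (Y : Finset (E d))
    (hY : ∀ y ∈ Y, ∀ z ∈ Y, y ≠ z → dist y z = 1) :
    form d (wv x Y) (wv x Y) = 1 - ∑ y ∈ Y, (1 - dist x y ^ 2) ^ 2 := by
  have h1 : form d (wv x Y) (wv x Y) = form d (wv x Y) (lift x) := by
    conv_lhs => rw [wv]
    rw [form_comm]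
    conv_lhs => rw [← wv]
    rw [form_comm, form_wv, form_comm d (lift x)]
    rw [Finset.sum_eq_zero]
    · rw [sub_zero]
    · intro y hy
      rw [form_comm, form_wv_of_mem x Y hY hy, mul_zero]
  rw [h1, form_wv, form_lift, dist_self]
  congr 1
  · norm_num
  · refine Finset.sum_congr rfl fun y _ => ?_
    rw [form_lift, dist_comm y x]; ring

/-- the points of V which are at distance one from x and all of Y -/
noncomputable def away {d : ℕ} (V : Finset (E d)) (x : E d) (Y : Finset (E d)) : Finset (E d) := by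
  classical
  exact V.filter (fun v => dist x v = 1 ∧ ∀ y ∈ Y, dist y v = 1)

theorem mem_away {d : ℕ} {V : Finset (E d)} {x : E d} {Y : Finset (E d)} {v : E d} :
    v ∈ away V x Y ↔ v ∈ V ∧ dist x v = 1 ∧ ∀ y ∈ Y, dist y v = 1 := by
  classical
  unfold away; rw [Finset.mem_filter]

open Classical in
theorem row_sum {d : ℕ} {V : Finset (E d)} (v : E d) (hv : v ∈ V) :
    ∑ y ∈ V, (1 - dist v y ^ 2) ^ 2 = 1 + ∑ y ∈ nbr V v, (1 - dist v y ^ 2) ^ 2 := by
  rw [← Finset.add_sum_erase V _ hv, dist_self]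
  congr 1
  · norm_num
  · symm
    apply Finset.sum_subset
    · intro y hy
      rw [mem_nbr] at hy
      exact Finset.mem_erase.mpr ⟨hy.2.1, hy.1⟩
    · intro y hy hy2
      rw [Finset.mem_erase] at hy
      rw [mem_nbr] at hy2
      have : dist v y = 1 := by
        by_contra h; exact hy2 ⟨hy.2, hy.1, h⟩
      rw [this]; norm_num

theorem AlmostEq.mono {d : ℕ} {V W : Finset (E d)} (hV : AlmostEq V) (h : W ⊆ V) : AlmostEq W :=
  fun x hx y hy z hz => hV x (h hx) y (h hy) z (h hz)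

theorem away_subset {d : ℕ} (V : Finset (E d)) (x : E d) (Y : Finset (E d)) : away V x Y ⊆ V :=
  fun _ hv => (mem_away.mp hv).1

theorem away_row {d : ℕ} {V : Finset (E d)} (hV : AlmostEq V) (x : E d) (Y : Finset (E d))
    (hY : ∀ y ∈ Y, ∀ z ∈ Y, y ≠ z → dist y z = 1)
    (hS : 1 < ∑ y ∈ Y, (1 - dist x y ^ 2) ^ 2) (v : E d) (hv : v ∈ away V x Y) :
    ∑ y ∈ away V x Y, (1 - dist v y ^ 2) ^ 2 ≤ 2 := by
  rw [row_sum v hv]
  have hA := hV.mono (away_subset V x Y)
  have hneg : form d (wv x Y) (wv x Y) < 0 := by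
    rw [form_wv_self x Y hY]; linarith
  have horth : form d (wv x Y) (wv v (nbr (away V x Y) v)) = 0 := by
    rw [form_comm, form_wv, form_comm, form_wv_far x Y (mem_away.mp hv).2.1 (mem_away.mp hv).2.2,
      Finset.sum_eq_zero, sub_zero]
    intro y hy
    have hy2 := mem_away.mp (mem_nbr.mp hy).1
    rw [form_comm, form_wv_far x Y hy2.2.1 hy2.2.2, mul_zero]
  have h := form_orth_nonneg hneg horth
  rw [form_wv_self _ _ (fun y hy z hz hyz => nbr_unit hA hv hy hz hyz)] at h
  linarith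

theorem away_card {d : ℕ} {V : Finset (E d)} (hV : AlmostEq V) (x : E d) (Y : Finset (E d))
    (hY : ∀ y ∈ Y, ∀ z ∈ Y, y ≠ z → dist y z = 1)
    (hS : 1 < ∑ y ∈ Y, (1 - dist x y ^ 2) ^ 2) :
    (away V x Y).card + 2 * Y.card + 2 ≤ 2 * (d + 2) := by
  classical
  set A := away V x Y with hA
  set S := ∑ y ∈ Y, (1 - dist x y ^ 2) ^ 2 with hSdef
  have hS1 : 0 < S - 1 := by linarith
  let t : ℝ := Real.sqrt (2 / (S - 1))
  have ht : t ^ 2 * (1 - S) = -2 := by
    have : t ^ 2 = 2 / (S - 1) := Real.sq_sqrt (by positivity)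
    rw [this]; field_simp; ring
  let v : (A ⊕ (Y ⊕ Unit)) → L d := fun j => match j with
    | Sum.inl a => lift (a : E d)
    | Sum.inr (Sum.inl y) => Real.sqrt 2 • lift (y : E d)
    | Sum.inr (Sum.inr _) => t • wv x Y
  let ε : (A ⊕ (Y ⊕ Unit)) → ℝ := fun j => match j with
    | Sum.inl _ => 1
    | Sum.inr (Sum.inl _) => 1
    | Sum.inr (Sum.inr _) => -1
  have hε : ∀ j, ε j ^ 2 = 1 := by
    rintro (a | y | u) <;> simp [ε]
  have h := trace_sq_le v ε hε
  have hs2 : Real.sqrt 2 * Real.sqrt 2 = 2 := Real.mul_self_sqrt (by norm_num)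
  have hww : form d (wv x Y) (wv x Y) = 1 - S := form_wv_self x Y hY
  have hL : ∑ j, ε j * form d (v j) (v j) = (A.card : ℝ) + 2 * Y.card + 2 := by
    rw [Fintype.sum_sum_type, Fintype.sum_sum_type]
    have e1 : ∑ a : A, ε (Sum.inl a) * form d (v (Sum.inl a)) (v (Sum.inl a)) = (A.card : ℝ) := by
      have : ∀ a : A, ε (Sum.inl a) * form d (v (Sum.inl a)) (v (Sum.inl a)) = 1 := by
        intro a
        simp only [ε, v]
        rw [form_lift, dist_self]; norm_num
      simp [this]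
    have e2 : ∑ y : Y, ε (Sum.inr (Sum.inl y)) * form d (v (Sum.inr (Sum.inl y))) (v (Sum.inr (Sum.inl y)))
        = 2 * (Y.card : ℝ) := by
      have : ∀ y : Y, ε (Sum.inr (Sum.inl y)) * form d (v (Sum.inr (Sum.inl y))) (v (Sum.inr (Sum.inl y))) = 2 := by
        intro y
        simp only [ε, v, map_smul, LinearMap.smul_apply, smul_eq_mul]
        rw [form_lift, dist_self]
        nlinarith [hs2]
      simp [this]; ring
    have e3 : ∑ u : Unit, ε (Sum.inr (Sum.inr u)) * form d (v (Sum.inr (Sum.inr u))) (v (Sum.inr (Sum.inr u)))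
        = 2 := by
      simp only [ε, v, map_smul, LinearMap.smul_apply, smul_eq_mul, Finset.univ_unique, Finset.sum_singleton]
      rw [hww]; nlinarith [ht]
    rw [e1, e2, e3]; ring
  have hR : ∑ j, ∑ i, form d (v j) (v i) ^ 2 ≤ 2 * ((A.card : ℝ) + 2 * Y.card + 2) := by
    simp only [Fintype.sum_sum_type]
    have hAY : ∀ (a : A) (y : Y), form d (v (Sum.inl a)) (v (Sum.inr (Sum.inl y))) = 0 := by
      intro a y
      simp only [v, map_smul, smul_eq_mul]
      rw [form_lift, dist_comm, (mem_away.mp a.2).2.2 y y.2]; norm_num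
    have hAw : ∀ (a : A) (u : Unit), form d (v (Sum.inl a)) (v (Sum.inr (Sum.inr u))) = 0 := by
      intro a u
      simp only [v, map_smul, smul_eq_mul]
      rw [form_comm, form_wv_far x Y (mem_away.mp a.2).2.1 (mem_away.mp a.2).2.2, mul_zero]
    have hYw : ∀ (y : Y) (u : Unit), form d (v (Sum.inr (Sum.inl y))) (v (Sum.inr (Sum.inr u))) = 0 := by
      intro y u
      simp only [v, map_smul, LinearMap.smul_apply, smul_eq_mul]
      rw [form_comm, form_wv_of_mem x Y hY y.2]; ring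
    have hYA : ∀ (a : A) (y : Y), form d (v (Sum.inr (Sum.inl y))) (v (Sum.inl a)) = 0 := by
      intro a y; rw [form_comm]; exact hAY a y
    have hwA : ∀ (a : A) (u : Unit), form d (v (Sum.inr (Sum.inr u))) (v (Sum.inl a)) = 0 := by
      intro a u; rw [form_comm]; exact hAw a u
    have hwY : ∀ (y : Y) (u : Unit), form d (v (Sum.inr (Sum.inr u))) (v (Sum.inr (Sum.inl y))) = 0 := by
      intro y u; rw [form_comm]; exact hYw y u
    have hwwv : ∀ (u u' : Unit), form d (v (Sum.inr (Sum.inr u))) (v (Sum.inr (Sum.inr u'))) = -2 := by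
      intro u u'
      simp only [v, map_smul, LinearMap.smul_apply, smul_eq_mul]
      rw [hww]; nlinarith [ht]
    have hAA : ∀ a : A, ∑ a' : A, form d (v (Sum.inl a)) (v (Sum.inl a')) ^ 2 ≤ 2 := by
      intro a
      have := away_row hV x Y hY hS a a.2
      simp only [v, form_lift]
      rw [← hA] at this
      rw [Finset.sum_coe_sort A (fun y => (1 - dist (a : E d) y ^ 2) ^ 2)]
      exact this
    have hYY : ∀ y : Y, ∑ y' : Y, form d (v (Sum.inr (Sum.inl y))) (v (Sum.inr (Sum.inl y'))) ^ 2 = 4 := by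
      intro y
      rw [Finset.sum_eq_single y]
      · simp only [v, map_smul, LinearMap.smul_apply, smul_eq_mul, form_lift, dist_self]
        have : Real.sqrt 2 * (Real.sqrt 2 * (1 - 0 ^ 2)) = 2 := by nlinarith [hs2]
        rw [this]; norm_num
      · intro y' _ hyy
        simp only [v, map_smul, LinearMap.smul_apply, smul_eq_mul, form_lift]
        rw [hY y y.2 y' y'.2 (fun h => hyy (Subtype.ext h).symm)]; norm_num
      · intro h; exact absurd (Finset.mem_univ _) h
    simp only [hAY, hAw, hYw, hYA, hwA, hwY, hwwv, hYY]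
    have h1 : ∑ a : A, ∑ a' : A, form d (v (Sum.inl a)) (v (Sum.inl a')) ^ 2 ≤ 2 * (A.card : ℝ) := by
      refine (Finset.sum_le_sum fun a _ => hAA a).trans ?_
      simp [mul_comm]
    simp only [Finset.univ_eq_attach] at h1
    simp
    linarith [h1]
  rw [hL] at h
  have hm : (0 : ℝ) < (A.card : ℝ) + 2 * Y.card + 2 := by positivity
  have h2 : ((A.card : ℝ) + 2 * Y.card + 2) ^ 2 ≤ ((d : ℝ) + 2) * (2 * ((A.card : ℝ) + 2 * Y.card + 2)) :=
    h.trans (mul_le_mul_of_nonneg_left hR (by positivity))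
  have h3 : (A.card : ℝ) + 2 * Y.card + 2 ≤ 2 * ((d : ℝ) + 2) := by
    by_contra hc
    push Not at hc
    nlinarith
  exact_mod_cast h3

theorem card_le_of_nbr {d : ℕ} {V : Finset (E d)} (hV : AlmostEq V) {x : E d} (hx : x ∈ V)
    (Y : Finset (E d)) (hYV : Y ⊆ nbr V x)
    (hS : 1 < ∑ y ∈ Y, (1 - dist x y ^ 2) ^ 2) {D : ℕ} (hD : ∀ v ∈ V, (nbr V v).card ≤ D) :
    V.card + 2 * Y.card + 2 ≤ 2 * (d + 2) + (Y.card + 1) * D := by
  classical
  have hY : ∀ y ∈ Y, ∀ z ∈ Y, y ≠ z → dist y z = 1 :=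
    fun y hy z hz hyz => nbr_unit hV hx (hYV hy) (hYV hz) hyz
  have h1 := away_card hV x Y hY hS
  have hYne : Y.Nonempty := by
    rw [Finset.nonempty_iff_ne_empty]
    intro h; rw [h] at hS; simp at hS; linarith
  obtain ⟨y0, hy0⟩ := hYne
  have hsub : V ⊆ away V x Y ∪ (insert x Y).biUnion (fun w => nbr V w) := by
    intro v hv
    rw [Finset.mem_union, Finset.mem_biUnion]
    by_cases hva : v ∈ away V x Y
    · exact Or.inl hva
    right
    by_cases hvx : v = x
    · refine ⟨y0, Finset.mem_insert_of_mem hy0, ?_⟩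
      have := mem_nbr.mp (hYV hy0)
      rw [mem_nbr, hvx]
      exact ⟨hx, Ne.symm this.2.1, by rw [dist_comm]; exact this.2.2⟩
    by_cases hvY : v ∈ Y
    · exact ⟨x, Finset.mem_insert_self _ _, hYV hvY⟩
    by_cases hd : dist x v = 1
    · have : ¬ ∀ y ∈ Y, dist y v = 1 := fun h => hva (mem_away.mpr ⟨hv, hd, h⟩)
      push Not at this
      obtain ⟨y, hy, hyv⟩ := this
      refine ⟨y, Finset.mem_insert_of_mem hy, ?_⟩
      rw [mem_nbr]
      exact ⟨hv, fun h => hvY (h ▸ hy), hyv⟩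
    · exact ⟨x, Finset.mem_insert_self _ _, mem_nbr.mpr ⟨hv, hvx, hd⟩⟩
  have h2 : V.card ≤ (away V x Y).card + (Y.card + 1) * D := by
    refine (Finset.card_le_card hsub).trans ((Finset.card_union_le _ _).trans ?_)
    refine Nat.add_le_add_left ?_ _
    refine (Finset.card_biUnion_le_card_mul _ _ D ?_).trans ?_
    · intro w hw
      apply hD
      rcases Finset.mem_insert.mp hw with h | h
      · rw [h]; exact hx
      · exact (mem_nbr.mp (hYV h)).1
    · exact Nat.mul_le_mul_right _ (Finset.card_insert_le _ _)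
  omega

theorem card_le_of_small {d : ℕ} {V : Finset (E d)}
    (hS : ∀ x ∈ V, ∑ y ∈ nbr V x, (1 - dist x y ^ 2) ^ 2 ≤ 1) :
    V.card ≤ 2 * (d + 2) := by
  classical
  have h := trace_sq_le (fun x : V => lift (x : E d)) (fun _ => 1) (fun _ => by norm_num)
  simp only [form_lift, dist_self] at h
  have hL : ∑ x : V, (1 : ℝ) * (1 - 0 ^ 2) = (V.card : ℝ) := by simp
  rw [hL] at h
  have hR : ∑ x : V, ∑ y : V, (1 - dist (x : E d) (y : E d) ^ 2) ^ 2 ≤ 2 * (V.card : ℝ) := by
    have : ∀ x : V, ∑ y : V, (1 - dist (x : E d) (y : E d) ^ 2) ^ 2 ≤ 2 := by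
      intro x
      rw [Finset.sum_coe_sort V (fun y => (1 - dist (x : E d) y ^ 2) ^ 2), row_sum (x : E d) x.2]
      linarith [hS x x.2]
    refine (Finset.sum_le_sum fun x _ => this x).trans ?_
    simp [mul_comm]
  rcases Nat.eq_zero_or_pos V.card with h0 | h0
  · omega
  have hm : (0 : ℝ) < (V.card : ℝ) := by exact_mod_cast h0
  have h2 : (V.card : ℝ) ^ 2 ≤ ((d : ℝ) + 2) * (2 * (V.card : ℝ)) :=
    h.trans (mul_le_mul_of_nonneg_left hR (by positivity))
  have h3 : (V.card : ℝ) ≤ 2 * ((d : ℝ) + 2) := by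
    by_contra hc
    push Not at hc
    nlinarith
  exact_mod_cast h3

end Pool.Agent.Lib.Helper17.AE
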